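import Mathlib

set_option autoImplicit false

namespace Pool.Agent.Lib.MP_4faf9f_co

open Equiv

/-- The descent set `Des(π) = {i ∈ [n-1] : π(i) > π(i+1)}` with the usual 1-based indexing: the
`i`-th value of `π` is `π ⟨i-1, _⟩`, the `(i+1)`-st is `π ⟨i, _⟩`. -/
def Des {n : ℕ} (π : Perm (Fin n)) : Finset ℕ :=
  (Finset.range n).filter
    (fun i => ∃ (_ : 1 ≤ i) (h : i < n), π ⟨i, h⟩ < π ⟨i - 1, by omega⟩)

/-- Gessel's fundamental quasisymmetric function `F_{n,D}`, the formal power series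
`∑ x_{i_1} ⋯ x_{i_n}` over all `i_1 ≤ ⋯ ≤ i_n` with `i_j < i_{j+1}` for `j ∈ D`: its coefficient at
a monomial is the number of such sequences giving that monomial. -/
noncomputable def fund (n : ℕ) (D : Finset ℕ) : MvPowerSeries ℕ ℤ := fun m =>
  (Nat.card {i : Fin n → ℕ // Monotone i ∧
    (∀ j ∈ D, ∀ (_ : 1 ≤ j) (h : j < n), i ⟨j - 1, by omega⟩ < i ⟨j, h⟩) ∧
    ∑ j, Finsupp.single (i j) 1 = m} : ℤ)

/-- `𝒬(A) = ∑_{π ∈ A} F_{n, Des(π)}`, counted with multiplicity. -/
noncomputable def Q {n : ℕ} (A : Multiset (Perm (Fin n))) : MvPowerSeries ℕ ℤ :=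
  (A.map (fun π => fund n (Des π))).sum

/-- A power series in `x_0, x_1, …` is symmetric if it is unchanged by all permutations of the
variables. -/
def IsSymmetric (f : MvPowerSeries ℕ ℤ) : Prop :=
  ∀ (σ : Perm ℕ) (m : ℕ →₀ ℕ), MvPowerSeries.coeff (m.mapDomain σ) f = MvPowerSeries.coeff m f

/-- The Schur function `s_μ`: its coefficient at a monomial is the number of semistandard Young
tableaux of shape `μ` with that content. -/
noncomputable def schur (μ : YoungDiagram) : MvPowerSeries ℕ ℤ := fun m =>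
  (Nat.card {T : SemistandardYoungTableau μ // ∑ c ∈ μ.cells, Finsupp.single (T c.1 c.2) 1 = m} : ℤ)

/-- A multiset `A` of permutations in `S_n` is fine if `𝒬(A)` is a symmetric function whose
expansion in Schur functions has nonnegative coefficients. -/
def IsFine {n : ℕ} (A : Multiset (Perm (Fin n))) : Prop :=
  IsSymmetric (Q A) ∧ ∃ c : YoungDiagram →₀ ℕ, (∀ μ ∈ c.support, μ.card = n) ∧
    Q A = c.sum (fun μ k => k • schur μ)

/-- The inverse descent class `{π ∈ S_n : Des(π⁻¹) = J}`. -/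
def invDescentClass (n : ℕ) (J : Finset ℕ) : Finset (Perm (Fin n)) :=
  Finset.univ.filter (fun π => Des π⁻¹ = J)

/-- The product multiset `{ab : a ∈ A, b ∈ B}`, with multiplicities. -/
def prodMultiset {n : ℕ} (A B : Finset (Perm (Fin n))) : Multiset (Perm (Fin n)) :=
  (A ×ˢ B).val.map (fun p => p.1 * p.2)

end Pool.Agent.Lib.MP_4faf9f_co
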