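import Pool.Agent.Lib.MP_4faf9f_co.Words

set_option autoImplicit false

namespace Pool.Agent.Lib.MP_4faf9f_co

open Equiv Finset

/-- the swap of two base-`K` digits, as a permutation of `ℕ`. -/
def digitSwapFun (K : ℕ) (x : ℕ) : ℕ := if x < K * K then (x % K) * K + x / K else x

lemma digitSwap_inv (K : ℕ) : Function.Involutive (digitSwapFun K) := by
  intro x
  unfold digitSwapFun
  by_cases hx : x < K * K
  · have hK : 0 < K := by
      rcases Nat.eq_zero_or_pos K with h | h
      · subst h; simp at hx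
      · exact h
    have h1 : x / K < K := Nat.div_lt_of_lt_mul hx
    have h2 : x % K < K := Nat.mod_lt _ hK
    have h3 : (x % K) * K + x / K < K * K := by
      have : (x % K + 1) * K ≤ K * K := Nat.mul_le_mul_right K h2
      rw [add_mul, one_mul] at this
      omega
    rw [if_pos hx, if_pos h3]
    have h4 : ((x % K) * K + x / K) % K = x / K := by
      rw [Nat.add_comm, Nat.add_mul_mod_self_right, Nat.mod_eq_of_lt h1]
    have h5 : ((x % K) * K + x / K) / K = x % K := by
      rw [Nat.add_comm, Nat.add_mul_div_right _ _ hK, Nat.div_eq_of_lt h1, zero_add]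
    rw [h4, h5]
    exact Nat.div_add_mod' x K
  · rw [if_neg hx, if_neg hx]

def digitSwap (K : ℕ) : Perm ℕ := (digitSwap_inv K).toPerm

lemma digitSwap_apply (K p w : ℕ) (hp : p < K) (hw : w < K) :
    digitSwap K (p * K + w) = w * K + p := by
  change digitSwapFun K (p * K + w) = w * K + p
  unfold digitSwapFun
  have hK : 0 < K := by omega
  have h3 : p * K + w < K * K := by
    have : (p + 1) * K ≤ K * K := Nat.mul_le_mul_right K hp
    rw [add_mul, one_mul] at this
    omega
  rw [if_pos h3]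
  have h4 : (p * K + w) % K = w := by
    rw [Nat.add_comm, Nat.add_mul_mod_self_right, Nat.mod_eq_of_lt hw]
  have h5 : (p * K + w) / K = p := by
    rw [Nat.add_comm, Nat.add_mul_div_right _ _ hK, Nat.div_eq_of_lt hw, zero_add]
  rw [h4, h5]

/-- words with the same content are rearrangements of each other. -/
lemma exists_perm {n : ℕ} (u v : Fin n → ℕ) (h : cont u = cont v) :
    ∃ ρ : Perm (Fin n), v = u ∘ ρ := by
  have h1 : u ∘ Tuple.sort u = v ∘ Tuple.sort v :=
    monotone_unique _ _ (Tuple.monotone_sort u) (Tuple.monotone_sort v) (by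
      rw [cont_comp_perm, cont_comp_perm, h])
  refine ⟨(Tuple.sort v)⁻¹.trans (Tuple.sort u), ?_⟩
  funext x
  have := congrFun h1 (((Tuple.sort v)⁻¹ : Perm (Fin n)) x)
  simp at this
  simp only [Function.comp_apply, Equiv.trans_apply]
  exact this.symm

lemma word_lt {n : ℕ} {m : ℕ →₀ ℕ} {w : Fin n → ℕ} (hw : w ∈ W n m) (j : Fin n) :
    w j ≤ m.support.sup id := by
  classical
  unfold W at hw
  rw [Finset.mem_filter, Fintype.mem_piFinset] at hw
  exact Finset.le_sup (f := id) (hw.1 j)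

noncomputable def U {n : ℕ} (B : Finset (Perm (Fin n))) (α m : ℕ →₀ ℕ) : ℤ := by
  classical
  exact ∑ w ∈ W n m, ∑ u ∈ W n α, if Tuple.sort w * Tuple.sort u ∈ B then (1 : ℤ) else 0

lemma U_eq {n : ℕ} (B : Finset (Perm (Fin n))) (α m : ℕ →₀ ℕ) (K : ℕ)
    (hK : ∀ w ∈ W n m, ∀ j, w j < K) [DecidableEq (Perm (Fin n))] :
    U B α m = ∑ w ∈ W n m, ∑ p ∈ W n α,
      if Tuple.sort (fun j => p j * K + w j) ∈ B then (1 : ℤ) else 0 := by
  classical
  unfold U
  apply Finset.sum_congr rfl
  intro w hw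
  symm
  apply Finset.sum_bij' (fun p _ => p ∘ Tuple.sort w)
    (fun u _ => u ∘ ((Tuple.sort w)⁻¹ : Perm (Fin n)))
  · intro p hp
    rw [mem_W] at hp ⊢
    rw [cont_comp_perm, hp]
  · intro u hu
    rw [mem_W] at hu ⊢
    rw [cont_comp_perm, hu]
  · intro p _
    funext x
    simp
  · intro u _
    funext x
    simp
  · intro p _
    rw [radix K p w (hK w hw)]
    congr

lemma U_symm {n : ℕ} (B : Finset (Perm (Fin n))) (hB : IsSymmetric (Q B.val)) (α m : ℕ →₀ ℕ) :
    U B α m = U B m α := by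
  classical
  let K := m.support.sup id + α.support.sup id + 1
  have hKm : ∀ w ∈ W n m, ∀ j, w j < K := by
    intro w hw j
    have := word_lt hw j
    omega
  have hKα : ∀ w ∈ W n α, ∀ j, w j < K := by
    intro w hw j
    have := word_lt hw j
    omega
  have hK0 : 0 < K := Nat.succ_pos _
  rw [U_eq B α m K hKm, U_eq B m α K hKα, Finset.sum_comm (s := W n α)]
  rw [← Finset.sum_product', ← Finset.sum_product']
  set z : (Fin n → ℕ) × (Fin n → ℕ) → (Fin n → ℕ) := fun q j => q.2 j * K + q.1 j with hz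
  have hinj : Set.InjOn z ↑(W n m ×ˢ W n α) := by
    rintro ⟨w, p⟩ h1 ⟨w', p'⟩ h2 heq
    simp only [Finset.coe_product, Set.mem_prod, Finset.mem_coe] at h1 h2
    have hj : ∀ j, p j = p' j ∧ w j = w' j := by
      intro j
      have h3 : p j * K + w j = p' j * K + w' j := congrFun heq j
      have h4 := hKm w h1.1 j
      have h5 := hKm w' h2.1 j
      have h6 : p j = p' j := by
        have : (p j * K + w j) / K = (p' j * K + w' j) / K := by rw [h3]
        rw [Nat.add_comm, Nat.add_mul_div_right _ _ hK0, Nat.div_eq_of_lt h4, Nat.add_comm (p' j * K),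
          Nat.add_mul_div_right _ _ hK0, Nat.div_eq_of_lt h5] at this
        omega
      rw [h6] at h3
      exact ⟨h6, by omega⟩
    rw [Prod.mk.injEq]
    exact ⟨funext fun j => (hj j).2, funext fun j => (hj j).1⟩
  set Z : Finset (Fin n → ℕ) := (W n m ×ˢ W n α).image z with hZ
  have hclosed : ∀ x ∈ Z, ∀ y, cont y = cont x → y ∈ Z := by
    intro x hx y hxy
    obtain ⟨ρ, rfl⟩ := exists_perm x y hxy.symm
    rw [hZ, Finset.mem_image] at hx ⊢
    obtain ⟨⟨w, p⟩, hwp, rfl⟩ := hx
    rw [Finset.mem_product, mem_W, mem_W] at hwp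
    refine ⟨(w ∘ ρ, p ∘ ρ), ?_, rfl⟩
    rw [Finset.mem_product, mem_W, mem_W]
    exact ⟨by rw [cont_comp_perm]; exact hwp.1, by rw [cont_comp_perm]; exact hwp.2⟩
  have hL : (∑ x ∈ W n m ×ˢ W n α,
      if Tuple.sort (fun j => x.2 j * K + x.1 j) ∈ B then (1 : ℤ) else 0) =
      ∑ M ∈ Z.image cont, MvPowerSeries.coeff M (Q B.val) := by
    have h1 : (∑ x ∈ W n m ×ˢ W n α,
        if Tuple.sort (fun j => x.2 j * K + x.1 j) ∈ B then (1 : ℤ) else 0) =
        ∑ y ∈ Z, if Tuple.sort y ∈ B then (1 : ℤ) else 0 := by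
      rw [hZ, Finset.sum_image hinj]
    rw [h1]
    have h2 := Finset.sum_fiberwise_of_maps_to (s := Z) (t := Z.image cont) (g := cont)
      (fun x hx => Finset.mem_image_of_mem _ hx)
      (fun y => if Tuple.sort y ∈ B then (1 : ℤ) else 0)
    rw [← h2]
    apply Finset.sum_congr rfl
    intro M hM
    rw [coeff_Q, Finset.card_filter]
    push_cast
    obtain ⟨x, hx, rfl⟩ := Finset.mem_image.mp hM
    apply Finset.sum_congr _ (fun _ _ => rfl)
    ext y
    rw [Finset.mem_filter, mem_W]
    exact ⟨fun h => h.2, fun h => ⟨hclosed x hx y h, h⟩⟩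
  have hR : (∑ x ∈ W n m ×ˢ W n α,
      if Tuple.sort (fun j => x.1 j * K + x.2 j) ∈ B then (1 : ℤ) else 0) =
      ∑ M ∈ Z.image cont, MvPowerSeries.coeff (M.mapDomain (digitSwap K)) (Q B.val) := by
    have h1 : (∑ x ∈ W n m ×ˢ W n α,
        if Tuple.sort (fun j => x.1 j * K + x.2 j) ∈ B then (1 : ℤ) else 0) =
        ∑ y ∈ Z, if Tuple.sort (digitSwap K ∘ y) ∈ B then (1 : ℤ) else 0 := by
      rw [hZ, Finset.sum_image hinj]
      apply Finset.sum_congr rfl
      rintro ⟨w, p⟩ hwp
      rw [Finset.mem_product] at hwp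
      have h3 : (fun j => w j * K + p j) = digitSwap K ∘ z (w, p) := by
        funext j
        exact (digitSwap_apply K (p j) (w j) (hKα p hwp.2 j) (hKm w hwp.1 j)).symm
      rw [← h3]
    rw [h1]
    have h2 := Finset.sum_fiberwise_of_maps_to (s := Z) (t := Z.image cont) (g := cont)
      (fun x hx => Finset.mem_image_of_mem _ hx)
      (fun y => if Tuple.sort (digitSwap K ∘ y) ∈ B then (1 : ℤ) else 0)
    rw [← h2]
    apply Finset.sum_congr rfl
    intro M hM
    rw [coeff_Q, Finset.card_filter]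
    push_cast
    obtain ⟨x, hx, rfl⟩ := Finset.mem_image.mp hM
    apply Finset.sum_bij' (fun y _ => digitSwap K ∘ y) (fun y _ => digitSwap K ∘ y)
    · intro y hy
      rw [Finset.mem_filter] at hy
      rw [mem_W, cont_map, hy.2]
    · intro y hy
      rw [mem_W] at hy
      have h5 : cont (digitSwap K ∘ y) = cont x := by
        rw [cont_map, hy, ← Finsupp.mapDomain_comp]
        have : (digitSwap K : ℕ → ℕ) ∘ (digitSwap K : ℕ → ℕ) = id := by
          funext t
          exact digitSwap_inv K t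
        rw [this, Finsupp.mapDomain_id]
      rw [Finset.mem_filter]
      exact ⟨hclosed x hx _ h5, h5⟩
    · intro y _
      funext t
      exact digitSwap_inv K (y t)
    · intro y _
      funext t
      exact digitSwap_inv K (y t)
    · intro y _
      rfl
  rw [hL, hR]
  apply Finset.sum_congr rfl
  intro M _
  exact (hB (digitSwap K) M).symm

/-- the block colouring attached to `J` -/
def blk (n : ℕ) (J : Finset ℕ) : Fin n → ℕ := fun k => (J.filter (fun j => j ≤ k.1)).card

lemma blk_mono (n : ℕ) (J : Finset ℕ) : Monotone (blk n J) := by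
  intro a b hab
  unfold blk
  apply Finset.card_le_card
  intro j hj
  rw [Finset.mem_filter] at hj ⊢
  exact ⟨hj.1, hj.2.trans (Fin.le_def.mp hab)⟩

lemma blk_lt_iff {n : ℕ} (J : Finset ℕ) (j : ℕ) (h1 : 1 ≤ j) (h : j < n) :
    blk n J ⟨j - 1, by omega⟩ < blk n J ⟨j, h⟩ ↔ j ∈ J := by
  unfold blk
  simp only
  constructor
  · intro hlt
    by_contra hj
    have : J.filter (fun i => i ≤ j) = J.filter (fun i => i ≤ j - 1) := by
      ext i
      rw [Finset.mem_filter, Finset.mem_filter]
      constructor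
      · rintro ⟨hi, hij⟩
        refine ⟨hi, ?_⟩
        have : i ≠ j := by rintro rfl; exact hj hi
        omega
      · rintro ⟨hi, hij⟩
        exact ⟨hi, by omega⟩
    rw [this] at hlt
    exact lt_irrefl _ hlt
  · intro hj
    apply Finset.card_lt_card
    rw [Finset.ssubset_iff_of_subset]
    · refine ⟨j, ?_, ?_⟩
      · rw [Finset.mem_filter]; exact ⟨hj, le_rfl⟩
      · rw [Finset.mem_filter]; omega
    · intro i hi
      rw [Finset.mem_filter] at hi ⊢
      exact ⟨hi.1, by omega⟩

lemma sum_shuffle {n : ℕ} (J : Finset ℕ) (g : Perm (Fin n) → ℤ) :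
    ∑ τ ∈ Finset.univ.filter (fun τ : Perm (Fin n) => Des τ⁻¹ ⊆ J), g τ⁻¹ =
      ∑ u ∈ W n (cont (blk n J)), g (Tuple.sort u) := by
  classical
  have hsort : ∀ τ : Perm (Fin n), Des τ⁻¹ ⊆ J → Tuple.sort (blk n J ∘ τ) = τ⁻¹ := by
    intro τ hτ
    rw [sort_eq_iff]
    have h4 : (blk n J ∘ τ) ∘ (τ⁻¹ : Perm (Fin n)) = blk n J := by
      funext x
      simp
    rw [h4]
    refine ⟨blk_mono n J, ?_⟩
    intro j hj h1 h
    exact (blk_lt_iff J j h1 h).mpr (hτ hj)
  have hu : ∀ u ∈ W n (cont (blk n J)), u ∘ Tuple.sort u = blk n J := by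
    intro u hu
    rw [mem_W] at hu
    apply monotone_unique _ _ (Tuple.monotone_sort u) (blk_mono n J)
    rw [cont_comp_perm, hu]
  apply Finset.sum_bij' (fun (τ : Perm (Fin n)) _ => blk n J ∘ τ)
    (fun u _ => ((Tuple.sort u)⁻¹ : Perm (Fin n)))
  · intro τ _
    rw [mem_W, cont_comp_perm]
  · intro u hu'
    rw [Finset.mem_filter]
    refine ⟨Finset.mem_univ _, ?_⟩
    rw [inv_inv]
    intro j hj
    have h1 := ((sort_eq_iff u (Tuple.sort u)).mp rfl).2 j hj
    have hj' := hj
    unfold Des at hj'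
    rw [Finset.mem_filter] at hj'
    obtain ⟨_, hj1, hjn, _⟩ := hj'
    have h2 := h1 hj1 hjn
    rw [hu u hu'] at h2
    exact (blk_lt_iff J j hj1 hjn).mp h2
  · intro τ hτ
    rw [Finset.mem_filter] at hτ
    rw [hsort τ hτ.2, inv_inv]
  · intro u hu'
    funext x
    have := congrFun (hu u hu') (((Tuple.sort u)⁻¹ : Perm (Fin n)) x)
    simp at this
    simp only [Function.comp_apply]
    exact this.symm
  · intro τ hτ
    rw [Finset.mem_filter] at hτ
    rw [hsort τ hτ.2]

lemma sum_classes {n : ℕ} (J : Finset ℕ) (f : Perm (Fin n) → ℤ) :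
    ∑ J' ∈ J.powerset, ∑ τ ∈ invDescentClass n J', f τ =
      ∑ τ ∈ Finset.univ.filter (fun τ : Perm (Fin n) => Des τ⁻¹ ⊆ J), f τ := by
  classical
  have h2 := Finset.sum_fiberwise_of_maps_to
    (s := Finset.univ.filter (fun τ : Perm (Fin n) => Des τ⁻¹ ⊆ J)) (t := J.powerset)
    (g := fun τ => Des τ⁻¹) (fun x hx => by
      rw [Finset.mem_filter] at hx
      rw [Finset.mem_powerset]
      exact hx.2) f
  rw [← h2]
  apply Finset.sum_congr rfl
  intro J' hJ'
  rw [Finset.mem_powerset] at hJ'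
  apply Finset.sum_congr _ (fun _ _ => rfl)
  ext τ
  unfold invDescentClass
  simp only [Finset.mem_filter, Finset.mem_univ, true_and]
  exact ⟨fun h => ⟨h ▸ hJ', h⟩, fun h => h.2⟩

/-- the main identity, for every set of permutations with symmetric `𝒬`. -/
theorem main {n : ℕ} (B : Finset (Perm (Fin n))) (hB : IsSymmetric (Q B.val)) (J : Finset ℕ) :
    Q (prodMultiset B (invDescentClass n J)) = Q (prodMultiset (invDescentClass n J) B) := by
  classical
  apply MvPowerSeries.ext
  intro m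
  rw [coeff_right, coeff_left]
  induction J using Finset.strongInduction with
  | H J ih =>
    have hsum : ∑ J' ∈ J.powerset,
        ((∑ w ∈ W n m, ∑ τ ∈ invDescentClass n J', if Tuple.sort w * τ⁻¹ ∈ B then (1 : ℤ) else 0) -
        (∑ w ∈ W n m, ∑ τ ∈ invDescentClass n J',
          if τ⁻¹ * Tuple.sort w ∈ B then (1 : ℤ) else 0)) = 0 := by
      rw [Finset.sum_sub_distrib, Finset.sum_comm, Finset.sum_comm (s := J.powerset)]
      simp only [sum_classes]
      have h1 : ∀ w : Fin n → ℕ,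
          ∑ τ ∈ Finset.univ.filter (fun τ : Perm (Fin n) => Des τ⁻¹ ⊆ J),
            (if Tuple.sort w * τ⁻¹ ∈ B then (1 : ℤ) else 0) =
          ∑ u ∈ W n (cont (blk n J)), if Tuple.sort w * Tuple.sort u ∈ B then (1 : ℤ) else 0 :=
        fun w => sum_shuffle J (fun ρ => if Tuple.sort w * ρ ∈ B then (1 : ℤ) else 0)
      have h2 : ∀ w : Fin n → ℕ,
          ∑ τ ∈ Finset.univ.filter (fun τ : Perm (Fin n) => Des τ⁻¹ ⊆ J),
            (if τ⁻¹ * Tuple.sort w ∈ B then (1 : ℤ) else 0) =
          ∑ u ∈ W n (cont (blk n J)), if Tuple.sort u * Tuple.sort w ∈ B then (1 : ℤ) else 0 :=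
        fun w => sum_shuffle J (fun ρ => if ρ * Tuple.sort w ∈ B then (1 : ℤ) else 0)
      rw [Finset.sum_congr rfl (fun w _ => h1 w), Finset.sum_congr rfl (fun w _ => h2 w)]
      have h3 := U_symm B hB (cont (blk n J)) m
      unfold U at h3
      rw [Finset.sum_comm (s := W n (cont (blk n J)))] at h3
      rw [sub_eq_zero]
      convert h3 using 1
    rw [Finset.sum_eq_single J] at hsum
    · exact sub_eq_zero.mp hsum
    · intro J' hJ' hne
      rw [Finset.mem_powerset] at hJ'
      rw [ih J' (Finset.ssubset_iff_subset_ne.mpr ⟨hJ', hne⟩), sub_self]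
    · intro h
      exact absurd (Finset.mem_powerset_self J) h

end Pool.Agent.Lib.MP_4faf9f_co
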