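import Pool.Agent.Lib.MP_4faf9f_co.Defs

set_option autoImplicit false

namespace Pool.Agent.Lib.MP_4faf9f_co

open Equiv Finset

/-- content of a word -/
noncomputable def cont {n : ℕ} (w : Fin n → ℕ) : ℕ →₀ ℕ := ∑ j, Finsupp.single (w j) 1

lemma cont_apply {n : ℕ} (w : Fin n → ℕ) (x : ℕ) :
    cont w x = (Finset.univ.filter (fun j => w j = x)).card := by
  classical
  unfold cont
  rw [Finsupp.finsetSum_apply]
  simp only [Finsupp.single_apply]
  rw [Finset.card_filter]

lemma cont_comp_perm {n : ℕ} (w : Fin n → ℕ) (σ : Perm (Fin n)) :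
    cont (w ∘ σ) = cont w := by
  unfold cont
  exact Equiv.sum_comp σ (fun j => Finsupp.single (w j) 1)

lemma cont_map {n : ℕ} (w : Fin n → ℕ) (φ : ℕ → ℕ) :
    cont (φ ∘ w) = (cont w).mapDomain φ := by
  unfold cont
  rw [Finsupp.mapDomain_finsetSum]
  simp [Finsupp.mapDomain_single]

/-- words with given content -/
noncomputable def W (n : ℕ) (m : ℕ →₀ ℕ) : Finset (Fin n → ℕ) := by
  classical
  exact (Fintype.piFinset (fun _ => m.support)).filter (fun w => cont w = m)

lemma mem_W {n : ℕ} {m : ℕ →₀ ℕ} {w : Fin n → ℕ} : w ∈ W n m ↔ cont w = m := by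
  classical
  unfold W
  rw [Finset.mem_filter, and_iff_right_iff_imp]
  intro h
  rw [Fintype.mem_piFinset]
  intro j
  rw [← h, Finsupp.mem_support_iff, cont_apply]
  have : j ∈ Finset.univ.filter (fun j' => w j' = w j) := by simp
  exact (Finset.card_pos.mpr ⟨j, this⟩).ne'

/-- strict ascents at the descents of `π` amounts to stability. -/
lemma strict_iff {n : ℕ} (π : Perm (Fin n)) (i : Fin n → ℕ) (hi : Monotone i) :
    (∀ j ∈ Des π, ∀ (_ : 1 ≤ j) (h : j < n), i ⟨j - 1, by omega⟩ < i ⟨j, h⟩) ↔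
      ∀ a b, a < b → i a = i b → π a < π b := by
  constructor
  · intro h
    have key : ∀ (d : ℕ) (a b : Fin n), b.1 = a.1 + d → 0 < d → i a = i b → π a < π b := by
      intro d
      induction d with
      | zero => intro a b _ h0; omega
      | succ d ih =>
        intro a b hab _ hiab
        have hb : b.1 < n := b.2
        have hb1 : 1 ≤ b.1 := by omega
        let b' : Fin n := ⟨b.1 - 1, by omega⟩
        have hb'b : b' ≤ b := by
          rw [Fin.le_def]; exact Nat.sub_le _ _
        have hab' : a ≤ b' := by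
          rw [Fin.le_def]; change a.1 ≤ b.1 - 1; omega
        have h1 : i b' = i b := by
          apply le_antisymm (hi hb'b)
          rw [← hiab]
          exact hi hab'
        have hstep : π b' < π b := by
          by_contra hnot
          have hne : π b ≠ π b' := by
            intro heq
            have := π.injective heq
            rw [Fin.ext_iff] at this
            change b.1 = b.1 - 1 at this
            omega
          have hlt : π b < π b' := lt_of_le_of_ne (not_lt.mp hnot) hne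
          have hmem : b.1 ∈ Des π := by
            unfold Des
            rw [Finset.mem_filter, Finset.mem_range]
            exact ⟨b.2, hb1, b.2, hlt⟩
          have := h b.1 hmem hb1 b.2
          exact absurd h1 this.ne
        rcases Nat.eq_zero_or_pos d with hd | hd
        · have : a = b' := by
            rw [Fin.ext_iff]; change a.1 = b.1 - 1; omega
          rw [this]
          exact hstep
        · have h2 := ih a b' (by change b.1 - 1 = a.1 + d; omega) hd (by rw [hiab, h1])
          exact h2.trans hstep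
    intro a b hab hiab
    exact key (b.1 - a.1) a b (by have := Fin.lt_def.mp hab; omega)
      (by have := Fin.lt_def.mp hab; omega) hiab
  · intro h j hj h1 hjn
    unfold Des at hj
    rw [Finset.mem_filter] at hj
    obtain ⟨_, _, _, hlt⟩ := hj
    have hle : i ⟨j - 1, by omega⟩ ≤ i ⟨j, hjn⟩ := hi (by rw [Fin.le_def]; exact Nat.sub_le _ _)
    refine lt_of_le_of_ne hle ?_
    intro heq
    have h2 := h ⟨j - 1, by omega⟩ ⟨j, hjn⟩ (by rw [Fin.lt_def]; change j - 1 < j; omega) heq
    exact absurd hlt (not_lt.mpr h2.le)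

lemma sort_eq_iff {n : ℕ} (w : Fin n → ℕ) (π : Perm (Fin n)) :
    Tuple.sort w = π ↔ Monotone (w ∘ π) ∧
      (∀ j ∈ Des π, ∀ (_ : 1 ≤ j) (h : j < n), (w ∘ π) ⟨j - 1, by omega⟩ < (w ∘ π) ⟨j, h⟩) := by
  rw [eq_comm, Tuple.eq_sort_iff]
  constructor
  · rintro ⟨h1, h2⟩
    exact ⟨h1, (strict_iff π _ h1).mpr h2⟩
  · rintro ⟨h1, h2⟩
    exact ⟨h1, (strict_iff π _ h1).mp h2⟩

lemma coeff_fund {n : ℕ} (π : Perm (Fin n)) (m : ℕ →₀ ℕ) :
    MvPowerSeries.coeff m (fund n (Des π)) =
      (((W n m).filter (fun w => Tuple.sort w = π)).card : ℤ) := by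
  classical
  rw [MvPowerSeries.coeff_apply]
  unfold fund
  congr 1
  rw [← Fintype.card_coe, ← Nat.card_eq_fintype_card]
  apply Nat.card_congr
  refine ⟨fun i => ⟨i.1 ∘ (π⁻¹ : Perm (Fin n)), ?_⟩, fun w => ⟨w.1 ∘ π, ?_⟩, ?_, ?_⟩
  · obtain ⟨i, h1, h2, h3⟩ := i
    rw [Finset.mem_filter, mem_W, sort_eq_iff]
    have h4 : (i ∘ (π⁻¹ : Perm (Fin n))) ∘ π = i := by
      funext x
      simp
    refine ⟨?_, ?_⟩
    · rw [cont_comp_perm]
      exact h3
    · rw [h4]
      exact ⟨h1, h2⟩
  · obtain ⟨w, hw⟩ := w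
    rw [Finset.mem_filter, mem_W, sort_eq_iff] at hw
    refine ⟨hw.2.1, hw.2.2, ?_⟩
    change cont (w ∘ π) = m
    rw [cont_comp_perm]
    exact hw.1
  · rintro ⟨i, hi⟩
    apply Subtype.ext
    funext x
    simp
  · rintro ⟨w, hw⟩
    apply Subtype.ext
    funext x
    simp

/-- the number of words of content `m` whose sorting permutation lies in `B`. -/
lemma coeff_Q {n : ℕ} (B : Finset (Perm (Fin n))) (m : ℕ →₀ ℕ) :
    MvPowerSeries.coeff m (Q B.val) =
      (((W n m).filter (fun w => Tuple.sort w ∈ B)).card : ℤ) := by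
  classical
  unfold Q
  change MvPowerSeries.coeff m (∑ π ∈ B, fund n (Des π)) = _
  rw [map_sum, Finset.sum_congr rfl (fun π _ => coeff_fund π m)]
  rw [Finset.card_eq_sum_card_fiberwise (f := fun w => Tuple.sort w) (t := B)]
  · push_cast
    apply Finset.sum_congr rfl
    intro π hπ
    congr 2
    ext w
    simp only [Finset.mem_filter]
    constructor
    · rintro ⟨h1, h2⟩
      exact ⟨⟨h1, h2 ▸ hπ⟩, h2⟩
    · rintro ⟨⟨h1, _⟩, h2⟩
      exact ⟨h1, h2⟩
  · intro w hw
    simp only [Finset.coe_filter, Set.mem_ofPred_eq] at hw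
    exact hw.2

lemma coeff_Q_prod {n : ℕ} (A B : Finset (Perm (Fin n))) (m : ℕ →₀ ℕ) :
    MvPowerSeries.coeff m (Q (prodMultiset A B)) =
      ∑ w ∈ W n m, ∑ a ∈ A, ∑ b ∈ B, if Tuple.sort w = a * b then (1 : ℤ) else 0 := by
  classical
  unfold Q prodMultiset
  rw [Multiset.map_map]
  change MvPowerSeries.coeff m (∑ p ∈ A ×ˢ B, fund n (Des (p.1 * p.2))) = _
  rw [map_sum, Finset.sum_congr rfl (fun p _ => coeff_fund (p.1 * p.2) m)]
  rw [Finset.sum_product]
  have h1 : ∀ a b : Perm (Fin n), (((W n m).filter (fun w => Tuple.sort w = a * b)).card : ℤ) =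
      ∑ w ∈ W n m, if Tuple.sort w = a * b then (1 : ℤ) else 0 := by
    intro a b
    rw [Finset.card_filter]
    push_cast
    rfl
  simp only [h1]
  rw [Finset.sum_comm' (s := W n m) (t := fun _ => A) (s' := fun _ => W n m) (t' := A) (by tauto)]
  apply Finset.sum_congr rfl
  intro a _
  rw [Finset.sum_comm]

lemma coeff_right {n : ℕ} (B D : Finset (Perm (Fin n))) (m : ℕ →₀ ℕ) :
    MvPowerSeries.coeff m (Q (prodMultiset B D)) =
      ∑ w ∈ W n m, ∑ τ ∈ D, if Tuple.sort w * τ⁻¹ ∈ B then (1 : ℤ) else 0 := by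
  classical
  rw [coeff_Q_prod]
  apply Finset.sum_congr rfl
  intro w _
  rw [Finset.sum_comm]
  apply Finset.sum_congr rfl
  intro τ _
  have h1 : ∀ b : Perm (Fin n), (Tuple.sort w = b * τ) ↔ Tuple.sort w * τ⁻¹ = b := by
    intro b
    rw [mul_inv_eq_iff_eq_mul]
  simp only [h1]
  rw [Finset.sum_ite_eq B]

lemma coeff_left {n : ℕ} (B D : Finset (Perm (Fin n))) (m : ℕ →₀ ℕ) :
    MvPowerSeries.coeff m (Q (prodMultiset D B)) =
      ∑ w ∈ W n m, ∑ τ ∈ D, if τ⁻¹ * Tuple.sort w ∈ B then (1 : ℤ) else 0 := by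
  classical
  rw [coeff_Q_prod]
  apply Finset.sum_congr rfl
  intro w _
  apply Finset.sum_congr rfl
  intro τ _
  have h1 : ∀ b : Perm (Fin n), (Tuple.sort w = τ * b) ↔ τ⁻¹ * Tuple.sort w = b := by
    intro b
    rw [inv_mul_eq_iff_eq_mul]
  simp only [h1]
  rw [Finset.sum_ite_eq B]

/-- two weakly increasing words with the same content are equal. -/
lemma monotone_unique {n : ℕ} (u v : Fin n → ℕ) (hu : Monotone u) (hv : Monotone v)
    (h : cont u = cont v) : u = v := by
  classical
  have hcount : ∀ a : ℕ, (Finset.univ.filter (fun j => u j ≤ a)).card =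
      (Finset.univ.filter (fun j => v j ≤ a)).card := by
    intro a
    have h1 : ∀ w : Fin n → ℕ, (Finset.univ.filter (fun j => w j ≤ a)).card =
        ∑ x ∈ Finset.range (a + 1), cont w x := by
      intro w
      rw [Finset.card_eq_sum_card_fiberwise (f := w) (t := Finset.range (a + 1))]
      · apply Finset.sum_congr rfl
        intro x hx
        rw [cont_apply]
        congr 1
        ext j
        simp only [Finset.mem_filter, Finset.mem_univ, true_and, Finset.mem_range] at hx ⊢
        constructor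
        · exact fun h => h.2
        · intro h
          exact ⟨by omega, h⟩
      · intro j hj
        simp only [Finset.coe_filter, Set.mem_ofPred_eq, Finset.mem_univ, true_and] at hj
        simp only [Finset.coe_range, Set.mem_Iio]
        omega
    rw [h1, h1, h]
  funext j
  have h2 : ∀ a, u j ≤ a ↔ v j ≤ a := by
    intro a
    rw [← Tuple.lt_card_le_iff_apply_le_of_monotone hu,
      ← Tuple.lt_card_le_iff_apply_le_of_monotone hv, hcount]
  exact le_antisymm ((h2 _).mpr le_rfl) ((h2 _).mp le_rfl)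

/-- radix sort -/
lemma radix {n : ℕ} (K : ℕ) (p w : Fin n → ℕ) (hw : ∀ j, w j < K) :
    Tuple.sort (fun j => p j * K + w j) = Tuple.sort w * Tuple.sort (p ∘ Tuple.sort w) := by
  symm
  rw [Tuple.eq_sort_iff]
  obtain ⟨hρ1, hρ2⟩ := Tuple.eq_sort_iff.mp (rfl : Tuple.sort w = Tuple.sort w)
  obtain ⟨hκ1, hκ2⟩ := Tuple.eq_sort_iff.mp
    (rfl : Tuple.sort (p ∘ Tuple.sort w) = Tuple.sort (p ∘ Tuple.sort w))
  set ρ := Tuple.sort w with hρ
  set κ := Tuple.sort (p ∘ ρ) with hκ
  constructor
  · intro a b hab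
    rcases eq_or_lt_of_le hab with rfl | hlt
    · exact le_rfl
    have h1 : p (ρ (κ a)) ≤ p (ρ (κ b)) := hκ1 hab
    change p (ρ (κ a)) * K + w (ρ (κ a)) ≤ p (ρ (κ b)) * K + w (ρ (κ b))
    rcases eq_or_lt_of_le h1 with heq | hlt'
    · have h2 := hκ2 a b hlt heq
      have h3 : w (ρ (κ a)) ≤ w (ρ (κ b)) := hρ1 h2.le
      rw [heq]
      omega
    · have h3 := hw (ρ (κ a))
      have h4 : (p (ρ (κ a)) + 1) * K ≤ p (ρ (κ b)) * K := Nat.mul_le_mul_right K hlt'
      rw [add_mul, one_mul] at h4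
      omega
  · intro a b hab heq
    change p (ρ (κ a)) * K + w (ρ (κ a)) = p (ρ (κ b)) * K + w (ρ (κ b)) at heq
    have h1 : p (ρ (κ a)) ≤ p (ρ (κ b)) := hκ1 hab.le
    have ha := hw (ρ (κ a))
    have hb := hw (ρ (κ b))
    have hp : p (ρ (κ a)) = p (ρ (κ b)) := by
      rcases eq_or_lt_of_le h1 with h | h
      · exact h
      · exfalso
        have h4 : (p (ρ (κ a)) + 1) * K ≤ p (ρ (κ b)) * K := Nat.mul_le_mul_right K h
        rw [add_mul, one_mul] at h4
        omega
    rw [hp] at heq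
    have hww : w (ρ (κ a)) = w (ρ (κ b)) := by omega
    exact hρ2 _ _ (hκ2 a b hab hp) hww

end Pool.Agent.Lib.MP_4faf9f_co
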